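import Pool.Agent.helper13.U4.SpecD

set_option autoImplicit false

/-! Row `u4:PE`. -/

namespace Pool.Agent.U4

open Pool.Agent.UL

theorem PE (h1 : PRM_stmt) : PE_stmt := by
  intro k q h v x hP hL hH τ hτ1 hτ2 n1 n2 n3 n4 n5 n6
  obtain ⟨b, e, hb, he, heq, -, hb1, hs⟩ := h1 k q h v hP τ (by omega) hτ2
  have hb1' := hb1 hτ1
  obtain ⟨hk, hh, hq, hv⟩ := hP
  have h4 : h % 4 = 0 := by
    obtain ⟨m, rfl⟩ := Nat.exists_eq_add_of_le hk
    rw [hh, pow_add]
    norm_num
  have hpos : 4 ≤ h := by
    have : 0 < h := by rw [hh]; positivity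
    omega
  have hv15 : 15 * h ≤ v + 1 := by
    rw [hv]
    nlinarith
  have hTlt : ∀ a d, 1 ≤ a → a ≤ 11 → d < h → (2 * q - a) * h + d < v := by
    intro a d ha1 ha2 hd
    have e1 : (2 * q - a) * h + a * h = 2 * q * h := by
      rw [← Nat.add_mul]
      congr 1
      omega
    have e2 : h ≤ a * h := Nat.le_mul_of_pos_left h ha1
    have e3 : 2 * h * q = 2 * q * h := by ring
    rw [e3] at hv
    omega
  have hT1 : ∀ a d, 1 ≤ a → a ≤ 11 → a % 2 = 1 → d % 2 = 1 → d < h →
      x ((2 * q - a) * h + d) (2 * h + 1) = true := by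
    intro a d ha1 ha2 ha3 hd1 hd2
    exact hH.b1 (2 * q - a) d (by omega) hd1 hd2 (hTlt a d ha1 ha2 hd2).le
  have hT2 : ∀ a d, 1 ≤ a → a ≤ 11 → a % 2 = 1 → d % 2 = 1 → d < h →
      x ((2 * q - a) * h + d) (2 * h + 2) = true := by
    intro a d ha1 ha2 ha3 hd1 hd2
    exact hH.b2 (2 * q - a) d (by omega) (by omega) hd1 hd2 (hTlt a d ha1 ha2 hd2).le
  have hU6 : ∀ u, 4 * h + 1 ≤ u → u ≤ v → u % 2 = 0 → x u (2 * h + 6) = true := hH.b6
  have hU5 : ∀ B d, B = 7 ∨ B = 9 ∨ B = 11 → d % 4 = 3 → d < h →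
      x (B * h + d) (2 * h + 5) = true ∧ B * h + d < v := by
    rintro B d (rfl | rfl | rfl) hd hd'
    · exact ⟨hH.b5' 7 d (by omega) (by omega) (by omega) hd' (by omega), by omega⟩
    · exact ⟨hH.b5' 9 d (by omega) (by omega) (by omega) hd' (by omega), by omega⟩
    · exact ⟨hH.b5' 11 d (by omega) (by omega) (by omega) hd' (by omega), by omega⟩
  have fin1 : ∀ t1 u1 t2 u2 : ℕ, t1 + u1 = τ → t2 + u2 = τ → u1 ≠ u2 → t1 < v → t2 < v →
      u1 < v → u2 < v → x t1 (2 * h + 1) = true → x t2 (2 * h + 1) = true →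
      x u1 (2 * h + 6) = true → x u2 (2 * h + 6) = true → Pr2 v x (4 * h + 7) τ := by
    intro t1 u1 t2 u2 e1 e2 e3 e4 e5 e6 e7 e8 e9 e10 e11
    exact ⟨2 * h + 1, 2 * h + 6, t1, u1, t2, u2, by omega, by omega, by omega, e1, e2, e4, e6, e5,
      e7, e8, e10, e9, e11⟩
  have fin2 : ∀ t1 u1 t2 u2 : ℕ, t1 + u1 = τ → t2 + u2 = τ → u1 ≠ u2 → t1 < v → t2 < v →
      u1 < v → u2 < v → x t1 (2 * h + 2) = true → x t2 (2 * h + 2) = true →
      x u1 (2 * h + 5) = true → x u2 (2 * h + 5) = true → Pr2 v x (4 * h + 7) τ := by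
    intro t1 u1 t2 u2 e1 e2 e3 e4 e5 e6 e7 e8 e9 e10 e11
    exact ⟨2 * h + 2, 2 * h + 5, t1, u1, t2, u2, by omega, by omega, by omega, e1, e2, e4, e6, e5,
      e7, e8, e10, e9, e11⟩
  rcases Nat.mod_two_eq_zero_or_one e with hep | hep
  · rcases Nat.mod_two_eq_zero_or_one b with hpar | hpar
    · have s1 := hs (9 - b) 0 (by omega) (by omega) (by omega)
      have s2 := hs (11 - b) 0 (by omega) (by omega) (by omega)
      rw [show b + (9 - b) - 1 = 8 by omega] at s1
      rw [show b + (11 - b) - 1 = 10 by omega] at s2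
      exact fin1 _ _ _ _ s1 s2 (by omega) (hTlt _ _ (by omega) (by omega) (by omega))
        (hTlt _ _ (by omega) (by omega) (by omega)) (by omega) (by omega)
        (hT1 _ _ (by omega) (by omega) (by omega) (by omega) (by omega))
        (hT1 _ _ (by omega) (by omega) (by omega) (by omega) (by omega))
        (hU6 _ (by omega) (by omega) (by omega)) (hU6 _ (by omega) (by omega) (by omega))
    · have s1 := hs (8 - b) 0 (by omega) (by omega) (by omega)
      have s2 := hs (10 - b) 0 (by omega) (by omega) (by omega)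
      rw [show b + (8 - b) - 1 = 7 by omega] at s1
      rw [show b + (10 - b) - 1 = 9 by omega] at s2
      exact fin1 _ _ _ _ s1 s2 (by omega) (hTlt _ _ (by omega) (by omega) (by omega))
        (hTlt _ _ (by omega) (by omega) (by omega)) (by omega) (by omega)
        (hT1 _ _ (by omega) (by omega) (by omega) (by omega) (by omega))
        (hT1 _ _ (by omega) (by omega) (by omega) (by omega) (by omega))
        (hU6 _ (by omega) (by omega) (by omega)) (hU6 _ (by omega) (by omega) (by omega))
  · rcases Nat.mod_two_eq_zero_or_one b with hpar | hpar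
    · have he5 : 5 ≤ e := by
        by_contra hlt
        have h13 : e = 1 ∨ e = 3 := by omega
        have hb246 : b = 2 ∨ b = 4 ∨ b = 6 := by omega
        rcases h13 with rfl | rfl <;> rcases hb246 with rfl | rfl | rfl <;> omega
      have s1 := hs (9 - b) (h + 3 - e) (by omega) (by omega) (by omega)
      have s2 := hs (11 - b) (h + 3 - e) (by omega) (by omega) (by omega)
      rw [show b + (9 - b) - 1 = 8 by omega,
        show 8 * h + (e + (h + 3 - e)) = 9 * h + 3 by omega] at s1
      rw [show b + (11 - b) - 1 = 10 by omega,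
        show 10 * h + (e + (h + 3 - e)) = 11 * h + 3 by omega] at s2
      obtain ⟨u1, u2⟩ := hU5 9 3 (by omega) (by omega) (by omega)
      obtain ⟨u3, u4⟩ := hU5 11 3 (by omega) (by omega) (by omega)
      exact fin2 _ _ _ _ s1 s2 (by omega) (hTlt _ _ (by omega) (by omega) (by omega))
        (hTlt _ _ (by omega) (by omega) (by omega)) u2 u4
        (hT2 _ _ (by omega) (by omega) (by omega) (by omega) (by omega))
        (hT2 _ _ (by omega) (by omega) (by omega) (by omega) (by omega)) u1 u3
    · have h13 : e % 4 = 3 ∨ e % 4 = 1 := by omega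
      rcases h13 with h3 | h3
      · have s1 := hs (8 - b) 0 (by omega) (by omega) (by omega)
        have s2 := hs (10 - b) 0 (by omega) (by omega) (by omega)
        rw [show b + (8 - b) - 1 = 7 by omega] at s1
        rw [show b + (10 - b) - 1 = 9 by omega] at s2
        obtain ⟨u1, u2⟩ := hU5 7 (e + 0) (by omega) (by omega) (by omega)
        obtain ⟨u3, u4⟩ := hU5 9 (e + 0) (by omega) (by omega) (by omega)
        exact fin2 _ _ _ _ s1 s2 (by omega) (hTlt _ _ (by omega) (by omega) (by omega))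
          (hTlt _ _ (by omega) (by omega) (by omega)) u2 u4
          (hT2 _ _ (by omega) (by omega) (by omega) (by omega) (by omega))
          (hT2 _ _ (by omega) (by omega) (by omega) (by omega) (by omega)) u1 u3
      · have s1 := hs (8 - b) 2 (by omega) (by omega) (by omega)
        have s2 := hs (10 - b) 2 (by omega) (by omega) (by omega)
        rw [show b + (8 - b) - 1 = 7 by omega] at s1
        rw [show b + (10 - b) - 1 = 9 by omega] at s2
        obtain ⟨u1, u2⟩ := hU5 7 (e + 2) (by omega) (by omega) (by omega)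
        obtain ⟨u3, u4⟩ := hU5 9 (e + 2) (by omega) (by omega) (by omega)
        exact fin2 _ _ _ _ s1 s2 (by omega) (hTlt _ _ (by omega) (by omega) (by omega))
          (hTlt _ _ (by omega) (by omega) (by omega)) u2 u4
          (hT2 _ _ (by omega) (by omega) (by omega) (by omega) (by omega))
          (hT2 _ _ (by omega) (by omega) (by omega) (by omega) (by omega)) u1 u3

end Pool.Agent.U4
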