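import Pool.Agent.helper13.U4.SpecY

set_option autoImplicit false

namespace Pool.Agent.U4

theorem AM1 : AM1_stmt := by
  intro x y Q L hO
  induction L with
  | nil =>
    intro _ _
    simp
  | cons p L ih =>
    intro hN h
    rw [List.nodup_cons] at hN
    have h1 := ih hN.2 (fun q hq => h q (List.mem_cons_of_mem _ hq))
    rw [List.map_cons, List.count_cons]
    by_cases hy : y p.1 p.2 = true
    · have h2 : (L.map fun p => y p.1 p.2).count true = 0 := by
        rw [List.count_eq_zero]
        intro hm
        obtain ⟨q, hq, hqy⟩ := List.mem_map.1 hm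
        obtain ⟨a1, a2⟩ := h p List.mem_cons_self
        obtain ⟨b1, b2⟩ := h q (List.mem_cons_of_mem _ hq)
        obtain ⟨c1, c2⟩ := hO p.1 p.2 q.1 q.2 a1 b1 a2 hy b2 hqy
        have h3 : p = q := Prod.ext c1 c2
        exact hN.1 (h3 ▸ hq)
      rw [h2]
      split_ifs <;> omega
    · have h3 : (y p.1 p.2 == true) = false := by
        rw [Bool.not_eq_true] at hy
        rw [hy]
        rfl
      rw [h3]
      simpa using h1

end Pool.Agent.U4
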